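import Pool.Agent.Q120.FZ.Stm

/-!
# Project FZ: from the growth to the sums
-/

set_option autoImplicit false

open Complex MeasureTheory Filter Topology Set

namespace Pool.Agent.Q119.FZ

open Pool.Agent.Q120.FZ

/-- the integrand -/
noncomputable def hh (G : ℂ → ℂ) (y : ℝ) (s : ℂ) : ℂ := G s * (y : ℂ) ^ (s + 1) / (s * (s + 1))

theorem den_bd {σ : ℝ} (hσ : 0 < σ) {s : ℂ} (hs : σ ≤ s.re) :
    |s.im| + 3 ≤ (1 + 3 / σ) * ‖s‖ ∧ |s.im| + 3 ≤ (1 + 3 / σ) * ‖s + 1‖ := by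
  have key : ∀ z : ℂ, σ ≤ z.re → |z.im| + 3 ≤ (1 + 3 / σ) * ‖z‖ := by
    intro z hz
    have h1 : |z.im| ≤ ‖z‖ := Complex.abs_im_le_norm z
    have h2 : σ ≤ ‖z‖ := hz.trans ((le_abs_self _).trans (Complex.abs_re_le_norm z))
    have h3 : 3 ≤ 3 / σ * ‖z‖ := by
      rw [div_mul_eq_mul_div, le_div_iff₀ hσ]
      nlinarith
    linarith
  refine ⟨key s hs, ?_⟩
  have := key (s + 1) (by simp; linarith)
  simpa using this

theorem min_bd {u η : ℝ} (hu : 0 ≤ u) (hη : 0 < η) (hη1 : η ≤ 1) : min 1 u ≤ u ^ η := by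
  rcases le_total u 1 with h | h
  · rw [min_eq_right h]
    rcases eq_or_lt_of_le hu with h0 | h0
    · rw [← h0, Real.zero_rpow hη.ne']
    · calc u = u ^ (1 : ℝ) := (Real.rpow_one u).symm
        _ ≤ u ^ η := Real.rpow_le_rpow_of_exponent_ge h0 h hη1
  · rw [min_eq_left h]
    exact Real.one_le_rpow h hη.le

/-- the difference quotient -/
theorem K_bd {σ η x : ℝ} (hσ : 0 < σ) (hσ1 : σ < 1) (hη : 0 < η) (hη1 : η ≤ 1) (hx : 1 ≤ x) {s : ℂ}
    (hs : s.re = σ) :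
    ‖(((x + 1 : ℝ) : ℂ) ^ (s + 1) - (x : ℂ) ^ (s + 1)) / (s + 1)‖ ≤
      8 * x ^ σ * (x / ‖s + 1‖) ^ η := by
  have hx0 : 0 < x := by linarith
  have hs1 : s + 1 ≠ 0 := by
    intro h
    have := congrArg Complex.re h
    simp [hs] at this
    linarith
  have hn1 : 0 < ‖s + 1‖ := norm_pos_iff.2 hs1
  -- first bound
  have hA : ‖(((x + 1 : ℝ) : ℂ) ^ (s + 1) - (x : ℂ) ^ (s + 1)) / (s + 1)‖ ≤ 8 * x ^ σ := by
    have hd : ∀ u ∈ Icc x (x + 1), HasDerivWithinAt (fun y : ℝ => (y : ℂ) ^ (s + 1) / (s + 1))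
        ((u : ℂ) ^ s) (Icc x (x + 1)) u := by
      intro u hu
      exact (hasDerivAt_ofReal_cpow_const' (by linarith [hu.1]) (by
        intro h; apply hs1; rw [h]; ring)).hasDerivWithinAt
    have hb : ∀ u ∈ Ico x (x + 1), ‖(u : ℂ) ^ s‖ ≤ (x + 1) ^ σ := by
      intro u hu
      rw [Complex.norm_cpow_eq_rpow_re_of_pos (by linarith [hu.1]), hs]
      exact Real.rpow_le_rpow (by linarith [hu.1]) hu.2.le hσ.le
    have h1 := norm_image_sub_le_of_norm_deriv_le_segment' hd hb (x + 1) ⟨by linarith, le_refl _⟩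
    rw [← sub_div] at h1
    refine h1.trans ?_
    have h2 : (x + 1) ^ σ ≤ 2 * x ^ σ := by
      calc (x + 1) ^ σ ≤ (2 * x) ^ σ := Real.rpow_le_rpow (by linarith) (by linarith) hσ.le
        _ = 2 ^ σ * x ^ σ := Real.mul_rpow (by norm_num) hx0.le
        _ ≤ 2 ^ (1 : ℝ) * x ^ σ := by
            gcongr
            · norm_num
        _ = 2 * x ^ σ := by rw [Real.rpow_one]
    have : 0 ≤ x ^ σ := by positivity
    linarith
  -- second bound
  have hB : ‖(((x + 1 : ℝ) : ℂ) ^ (s + 1) - (x : ℂ) ^ (s + 1)) / (s + 1)‖ ≤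
      8 * x ^ σ * (x / ‖s + 1‖) := by
    rw [norm_div, mul_div_assoc', div_le_div_iff_of_pos_right hn1]
    refine (norm_sub_le _ _).trans ?_
    rw [Complex.norm_cpow_eq_rpow_re_of_pos (by linarith), Complex.norm_cpow_eq_rpow_re_of_pos hx0]
    have hre : (s + 1).re = σ + 1 := by simp [hs]
    rw [hre]
    have h2 : (x + 1) ^ (σ + 1) ≤ 4 * x ^ (σ + 1) := by
      calc (x + 1) ^ (σ + 1) ≤ (2 * x) ^ (σ + 1) :=
            Real.rpow_le_rpow (by linarith) (by linarith) (by linarith)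
        _ = 2 ^ (σ + 1) * x ^ (σ + 1) := Real.mul_rpow (by norm_num) hx0.le
        _ ≤ 2 ^ (2 : ℝ) * x ^ (σ + 1) := by
            gcongr
            · norm_num
            · linarith
        _ = 4 * x ^ (σ + 1) := by norm_num
    have h3 : x ^ (σ + 1) = x ^ σ * x := by rw [Real.rpow_add hx0, Real.rpow_one]
    have h4 : 0 < x ^ (σ + 1) := by positivity
    rw [mul_assoc, ← h3]
    linarith
  have hu : 0 ≤ x / ‖s + 1‖ := by positivity
  have hp : 0 ≤ 8 * x ^ σ := by positivity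
  calc ‖(((x + 1 : ℝ) : ℂ) ^ (s + 1) - (x : ℂ) ^ (s + 1)) / (s + 1)‖
      ≤ min (8 * x ^ σ) (8 * x ^ σ * (x / ‖s + 1‖)) := le_min hA hB
    _ = 8 * x ^ σ * min 1 (x / ‖s + 1‖) := by rw [mul_min_of_nonneg _ _ hp, mul_one]
    _ ≤ 8 * x ^ σ * (x / ‖s + 1‖) ^ η := mul_le_mul_of_nonneg_left (min_bd hu hη hη1) hp

/-- crude bound of the integrand -/
theorem hh_bd {G : ℂ → ℂ} {σ C y : ℝ} (hσ : 0 < σ) (hy : 1 ≤ y)
    (hG : ∀ s : ℂ, σ ≤ s.re → ‖G s‖ ≤ C * (|s.im| + 3) ^ (1 / 2 : ℝ)) (s : ℂ) (hs : σ ≤ s.re)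
    (hs2 : s.re ≤ 2) :
    ‖hh G y s‖ ≤ (C * (1 + 3 / σ) ^ 2 * y ^ (3 : ℝ)) * (|s.im| + 3) ^ (-(3 : ℝ) / 2) := by
  obtain ⟨h1, h2⟩ := den_bd hσ hs
  set T := |s.im| + 3 with hT
  have hT0 : 0 < T := by positivity
  set κ := 1 + 3 / σ with hκ
  have hκ0 : 0 < κ := by positivity
  have hg := hG s hs
  have hC : 0 ≤ C := by
    have : 0 ≤ C * T ^ (1 / 2 : ℝ) := (norm_nonneg _).trans hg
    have h3 : 0 < T ^ (1 / 2 : ℝ) := by positivity
    by_contra h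
    push Not at h
    nlinarith
  unfold hh
  rw [norm_div, norm_mul, norm_mul, Complex.norm_cpow_eq_rpow_re_of_pos (by linarith)]
  have hy3 : y ^ (s + 1).re ≤ y ^ (3 : ℝ) := by
    apply Real.rpow_le_rpow_of_exponent_le hy
    simp; linarith
  have hden : T ^ 2 / κ ^ 2 ≤ ‖s‖ * ‖s + 1‖ := by
    have h3 : T / κ ≤ ‖s‖ := by rw [div_le_iff₀ hκ0]; linarith
    have h4 : T / κ ≤ ‖s + 1‖ := by rw [div_le_iff₀ hκ0]; linarith
    calc T ^ 2 / κ ^ 2 = (T / κ) * (T / κ) := by field_simp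
      _ ≤ ‖s‖ * ‖s + 1‖ := mul_le_mul h3 h4 (by positivity) (norm_nonneg _)
  have hden0 : 0 < T ^ 2 / κ ^ 2 := by positivity
  calc ‖G s‖ * y ^ (s + 1).re / (‖s‖ * ‖s + 1‖)
      ≤ (C * T ^ (1 / 2 : ℝ)) * y ^ (3 : ℝ) / (T ^ 2 / κ ^ 2) := by
        gcongr
    _ = (C * κ ^ 2 * y ^ (3 : ℝ)) * (T ^ (1 / 2 : ℝ) / T ^ 2) := by field_simp
    _ = (C * κ ^ 2 * y ^ (3 : ℝ)) * T ^ (-(3 : ℝ) / 2) := by
        congr 1
        rw [← Real.rpow_natCast T 2, ← Real.rpow_sub hT0]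
        norm_num

theorem hh_diff {G : ℂ → ℂ} {θ y : ℝ} (hθ : 0 < θ) (hy : 0 < y)
    (hG : DifferentiableOn ℂ G {s | θ < s.re}) : DifferentiableOn ℂ (hh G y) {s | θ < s.re} := by
  intro s hs
  have hs' : θ < s.re := hs
  have h0 : s * (s + 1) ≠ 0 := by
    intro h
    rcases mul_eq_zero.1 h with h | h
    · rw [h] at hs'; simp at hs'; linarith
    · have := congrArg Complex.re h
      simp at this; linarith
  unfold hh
  refine DifferentiableWithinAt.div ((hG s hs).mul ?_) (by fun_prop) h0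
  have : DifferentiableAt ℂ (fun s : ℂ => (y : ℂ) ^ (s + 1)) s := by
    refine DifferentiableAt.const_cpow (by fun_prop) (Or.inl ?_)
    exact_mod_cast hy.ne'
  exact this.differentiableWithinAt

theorem int_pow {r : ℝ} (hr : 1 < r) : Integrable fun t : ℝ => (|t| + 3) ^ (-r) := by
  have h1 : Integrable fun t : ℝ => (1 + ‖t‖) ^ (-r) :=
    integrable_one_add_norm (by simpa using hr)
  refine h1.mono' ?_ (Eventually.of_forall fun t => ?_)
  · refine Measurable.aestronglyMeasurable ?_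
    fun_prop
  · rw [Real.norm_of_nonneg (by positivity), Real.norm_eq_abs]
    exact Real.rpow_le_rpow_of_nonpos (by positivity) (by linarith) (by linarith)

theorem hh_int {G : ℂ → ℂ} {θ σ C y a : ℝ} (hθ : 0 < θ) (hσ : θ < σ) (hy : 1 ≤ y)
    (hd : DifferentiableOn ℂ G {s | θ < s.re})
    (hG : ∀ s : ℂ, σ ≤ s.re → ‖G s‖ ≤ C * (|s.im| + 3) ^ (1 / 2 : ℝ)) (ha : σ ≤ a) (ha2 : a ≤ 2) :
    Integrable fun t : ℝ => hh G y ((a : ℂ) + t * I) := by
  have hσ0 : 0 < σ := hθ.trans hσ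
  have hc : Continuous fun t : ℝ => hh G y ((a : ℂ) + t * I) := by
    refine (hh_diff hθ (by linarith) hd).continuousOn.comp_continuous (by fun_prop) fun t => ?_
    simp; linarith
  refine ((int_pow (r := 3 / 2) (by norm_num)).const_mul
    (C * (1 + 3 / σ) ^ 2 * y ^ (3 : ℝ))).mono' hc.aestronglyMeasurable
    (Eventually.of_forall fun t => ?_)
  have := hh_bd hσ0 hy hG ((a : ℂ) + t * I) (by simpa using ha) (by simpa using ha2)
  simp only [add_im, ofReal_im, mul_im, ofReal_re, I_im, mul_one, I_re, mul_zero, add_zero,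
    zero_add] at this
  rw [neg_div] at this
  exact this

theorem t_PERR : J_PERR := by
  intro hR hS a G θ ha hθ hθ1 hd hGL hgr ε hε
  by_cases hbig : 1 ≤ θ + ε
  · refine ⟨1, fun x hx => ?_⟩
    have hx1 : (1 : ℝ) ≤ x := by exact_mod_cast hx
    calc ‖∑ n ∈ Finset.Icc 1 x, a n‖ ≤ ∑ n ∈ Finset.Icc 1 x, ‖a n‖ := norm_sum_le _ _
      _ ≤ ∑ n ∈ Finset.Icc 1 x, (1 : ℝ) := Finset.sum_le_sum fun n _ => ha n
      _ = (x : ℝ) ^ (1 : ℝ) := by simp
      _ ≤ (x : ℝ) ^ (θ + ε) := Real.rpow_le_rpow_of_exponent_le hx1 hbig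
      _ = 1 * (x : ℝ) ^ (θ + ε) := (one_mul _).symm
  push Not at hbig
  set σ := θ + ε / 2 with hσ
  set η := ε / 2 with hη
  have hη0 : 0 < η := by positivity
  have hη1 : η ≤ 1 := by linarith
  have hσ0 : 0 < σ := by positivity
  have hσ1 : σ < 1 := by linarith
  have hθσ : θ < σ := by linarith
  obtain ⟨C₁, hC₁⟩ := hgr σ (1 / 2) hθσ (by norm_num)
  obtain ⟨C₂, hC₂⟩ := hgr σ (η / 2) hθσ (by positivity)
  set κ := 1 + 3 / σ with hκ
  have hκ0 : 0 < κ := by positivity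
  have hC20 : 0 ≤ C₂ := by
    have h1 := (norm_nonneg _).trans (hC₂ (σ : ℂ) (by simp))
    have h2 : 0 < (|((σ : ℂ)).im| + 3) ^ (η / 2) := by positivity
    by_contra h
    push Not at h
    nlinarith
  -- the Riesz means
  have hRz : ∀ y : ℝ, 1 ≤ y → (y : ℂ) * ∑ n ∈ Finset.Icc 1 ⌊y⌋₊, a n * (1 - n / y) =
      1 / (2 * Real.pi) * ∫ t : ℝ, hh G y ((σ : ℂ) + t * I) := by
    intro y hy
    have hy0 : (y : ℂ) ≠ 0 := by
      have : y ≠ 0 := by linarith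
      exact_mod_cast this
    have h1 := hR a ha y 2 (by linarith) (by norm_num)
    have h2 := hS (hh G y) θ σ 2 (C₁ * (1 + 3 / σ) ^ 2 * y ^ (3 : ℝ)) hθσ (by linarith)
      (hh_diff hθ (by linarith) hd) (fun s hs hs2 => hh_bd hσ0 hy hC₁ s hs hs2)
    rw [h2, h1, mul_left_comm, ← integral_const_mul]
    congr 1
    refine integral_congr_ae (Eventually.of_forall fun t => ?_)
    simp only [hh]
    rw [hGL _ (by simp), Complex.cpow_add (((2 : ℝ) : ℂ) + t * I) 1 hy0, Complex.cpow_one]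
    ring
  -- the sum as a difference
  have hdiff : ∀ x : ℕ, 1 ≤ x → ∑ n ∈ Finset.Icc 1 x, a n =
      1 / (2 * Real.pi) * ∫ t : ℝ, (hh G (x + 1 : ℝ) ((σ : ℂ) + t * I) -
        hh G x ((σ : ℂ) + t * I)) := by
    intro x hx
    have hx1 : (1 : ℝ) ≤ x := by exact_mod_cast hx
    rw [integral_sub (hh_int hθ hθσ (by linarith) hd hC₁ le_rfl (by linarith))
      (hh_int hθ hθσ hx1 hd hC₁ le_rfl (by linarith)), mul_sub, ← hRz _ (by linarith),
      ← hRz _ hx1]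
    have hf1 : ⌊((x : ℝ) + 1)⌋₊ = x + 1 := by
      have : ((x : ℝ) + 1) = ((x + 1 : ℕ) : ℝ) := by push_cast; ring
      rw [this, Nat.floor_natCast]
    have hf2 : ⌊(x : ℝ)⌋₊ = x := Nat.floor_natCast x
    rw [hf1, hf2, Finset.mul_sum, Finset.mul_sum]
    have hxc : (x : ℂ) ≠ 0 := by exact_mod_cast (by omega : x ≠ 0)
    have hxc1 : (x : ℂ) + 1 ≠ 0 := by exact_mod_cast (by omega : x + 1 ≠ 0)
    have e1 : ∑ n ∈ Finset.Icc 1 (x + 1), (((x : ℝ) + 1 : ℝ) : ℂ) * (a n * (1 - n / (((x : ℝ) + 1 : ℝ) : ℂ))) =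
        ∑ n ∈ Finset.Icc 1 x, a n * ((x : ℂ) + 1 - n) := by
      rw [Finset.sum_Icc_succ_top (by omega)]
      push_cast
      have : ((x : ℂ) + 1) * (a (x + 1) * (1 - ((x : ℂ) + 1) / ((x : ℂ) + 1))) = 0 := by
        rw [div_self hxc1]; ring
      rw [this, add_zero]
      refine Finset.sum_congr rfl fun n _ => ?_
      field_simp
    have e2 : ∑ n ∈ Finset.Icc 1 x, ((x : ℝ) : ℂ) * (a n * (1 - n / ((x : ℝ) : ℂ))) =
        ∑ n ∈ Finset.Icc 1 x, a n * ((x : ℂ) - n) := by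
      push_cast
      refine Finset.sum_congr rfl fun n _ => ?_
      field_simp
    rw [e1, e2, ← Finset.sum_sub_distrib]
    refine Finset.sum_congr rfl fun n _ => ?_
    ring
  -- the bound
  set J := ∫ t : ℝ, (|t| + 3) ^ (-(1 + η / 2)) with hJ
  refine ⟨1 / (2 * Real.pi) * (8 * C₂ * κ ^ (1 + η) * J), fun x hx => ?_⟩
  have hx1 : (1 : ℝ) ≤ x := by exact_mod_cast hx
  have hx0 : (0 : ℝ) < x := by linarith
  rw [hdiff x hx, norm_mul]
  have hn : ‖(1 / (2 * Real.pi) : ℂ)‖ = 1 / (2 * Real.pi) := by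
    rw [norm_div, norm_mul, Complex.norm_real, Real.norm_of_nonneg Real.pi_pos.le]
    simp
  rw [hn, mul_assoc]
  have hpt : ∀ t : ℝ, ‖hh G (x + 1 : ℝ) ((σ : ℂ) + t * I) - hh G x ((σ : ℂ) + t * I)‖ ≤
      (8 * C₂ * κ ^ (1 + η) * (x : ℝ) ^ (θ + ε)) * (|t| + 3) ^ (-(1 + η / 2)) := by
    intro t
    set s : ℂ := (σ : ℂ) + t * I with hs
    have hsre : s.re = σ := by simp [hs]
    have hsim : s.im = t := by simp [hs]
    have hs0 : s ≠ 0 := by
      intro h; rw [h] at hsre; simp at hsre; linarith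
    have hs1 : s + 1 ≠ 0 := by
      intro h
      have := congrArg Complex.re h
      simp [hsre] at this
      linarith
    obtain ⟨b1, b2⟩ := den_bd hσ0 hsre.ge
    rw [hsim] at b1 b2
    set T := |t| + 3 with hT
    have hT0 : 0 < T := by positivity
    have hk := K_bd (x := (x : ℝ)) hσ0 hσ1 hη0 hη1 hx1 hsre
    have hg := hC₂ s hsre.ge
    rw [hsim] at hg
    have e : hh G (x + 1 : ℝ) s - hh G x s =
        G s * ((((x : ℝ) + 1 : ℝ) : ℂ) ^ (s + 1) - ((x : ℝ) : ℂ) ^ (s + 1)) / (s + 1) / s := by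
      unfold hh
      field_simp
    rw [e, norm_div, mul_div_assoc, norm_mul]
    have hsn : 0 < ‖s‖ := norm_pos_iff.2 hs0
    have hsn1 : 0 < ‖s + 1‖ := norm_pos_iff.2 hs1
    have c1 : 1 / ‖s‖ ≤ κ / T := by
      rw [div_le_div_iff₀ hsn hT0]; linarith
    have c2 : (x : ℝ) / ‖s + 1‖ ≤ κ * x / T := by
      rw [div_le_div_iff₀ hsn1 hT0]
      nlinarith
    have c3 : ((x : ℝ) / ‖s + 1‖) ^ η ≤ κ ^ η * (x : ℝ) ^ η * T ^ (-η) := by
      calc ((x : ℝ) / ‖s + 1‖) ^ η ≤ (κ * x / T) ^ η :=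
            Real.rpow_le_rpow (by positivity) c2 hη0.le
        _ = κ ^ η * (x : ℝ) ^ η * T ^ (-η) := by
            rw [Real.div_rpow (by positivity) hT0.le, Real.mul_rpow hκ0.le hx0.le,
              Real.rpow_neg hT0.le, div_eq_mul_inv]
    calc ‖G s‖ * ‖((((x : ℝ) + 1 : ℝ) : ℂ) ^ (s + 1) - ((x : ℝ) : ℂ) ^ (s + 1)) / (s + 1)‖ / ‖s‖
        = ‖G s‖ * ‖((((x : ℝ) + 1 : ℝ) : ℂ) ^ (s + 1) - ((x : ℝ) : ℂ) ^ (s + 1)) / (s + 1)‖ *
          (1 / ‖s‖) := by ring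
      _ ≤ (C₂ * T ^ (η / 2)) * (8 * (x : ℝ) ^ σ * (κ ^ η * (x : ℝ) ^ η * T ^ (-η))) * (κ / T) := by
          have : ‖((((x : ℝ) + 1 : ℝ) : ℂ) ^ (s + 1) - ((x : ℝ) : ℂ) ^ (s + 1)) / (s + 1)‖ ≤
              8 * (x : ℝ) ^ σ * (κ ^ η * (x : ℝ) ^ η * T ^ (-η)) :=
            hk.trans (mul_le_mul_of_nonneg_left c3 (by positivity))
          gcongr
      _ = (8 * C₂ * (κ ^ η * κ) * ((x : ℝ) ^ σ * (x : ℝ) ^ η)) *
          (T ^ (η / 2) * T ^ (-η) * T⁻¹) := by ring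
      _ = (8 * C₂ * κ ^ (1 + η) * (x : ℝ) ^ (θ + ε)) * T ^ (-(1 + η / 2)) := by
          congr 1
          · congr 1
            · congr 1
              rw [add_comm (1 : ℝ) η, Real.rpow_add hκ0, Real.rpow_one]
            · rw [← Real.rpow_add hx0]
              congr 1
              rw [hσ, hη]; ring
          · rw [← Real.rpow_add hT0, ← Real.rpow_neg_one, ← Real.rpow_add hT0]
            congr 1
            ring
  have hfin : ‖∫ t : ℝ, (hh G (x + 1 : ℝ) ((σ : ℂ) + t * I) - hh G x ((σ : ℂ) + t * I))‖ ≤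
      (8 * C₂ * κ ^ (1 + η) * (x : ℝ) ^ (θ + ε)) * J := by
    rw [hJ, ← integral_const_mul]
    exact norm_integral_le_of_norm_le ((int_pow (by linarith)).const_mul _)
      (Eventually.of_forall hpt)
  calc 1 / (2 * Real.pi) * ‖∫ t : ℝ, (hh G (x + 1 : ℝ) ((σ : ℂ) + t * I) -
        hh G x ((σ : ℂ) + t * I))‖
      ≤ 1 / (2 * Real.pi) * ((8 * C₂ * κ ^ (1 + η) * (x : ℝ) ^ (θ + ε)) * J) := by
        gcongr
    _ = _ := by ring

end Pool.Agent.Q119.FZ
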