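import Pool.Agent.Q120.FZ.Stm

/-!
# Project FZ: Perron's formula for the first Riesz mean
-/

set_option autoImplicit false

open Complex MeasureTheory Filter Topology Set

namespace Pool.Agent.Q119.FZ

open Pool.Agent.Q120.FZ

/-- the weight -/
noncomputable def ff (u : ℝ) : ℂ := ((max (1 - u) 0 : ℝ) : ℂ)

theorem ff_cont : Continuous ff := by unfold ff; fun_prop

theorem ff_lt {u : ℝ} (hu : u ≤ 1) : ff u = 1 - u := by
  unfold ff; rw [max_eq_left (by linarith)]; push_cast; rfl

theorem ff_ge {u : ℝ} (hu : 1 ≤ u) : ff u = 0 := by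
  unfold ff; rw [max_eq_right (by linarith)]; norm_num

theorem mellin_conv {s : ℂ} (hs : 0 < s.re) : MellinConvergent ff s := by
  have h1 : IntervalIntegrable (fun x : ℝ => (x : ℂ) ^ (s - 1) * (1 - (x : ℂ)) ^ ((2 : ℂ) - 1))
      volume 0 1 := Complex.betaIntegral_convergent hs (by norm_num)
  unfold MellinConvergent
  have h2 : IntegrableOn (fun t : ℝ => (t : ℂ) ^ (s - 1) • ff t) (Ioc 0 1) := by
    rw [intervalIntegrable_iff_integrableOn_Ioc_of_le zero_le_one] at h1
    refine h1.congr_fun (fun t ht => ?_) measurableSet_Ioc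
    simp only
    rw [ff_lt ht.2, show (2 : ℂ) - 1 = 1 by norm_num, cpow_one, smul_eq_mul]
  have h3 : IntegrableOn (fun t : ℝ => (t : ℂ) ^ (s - 1) • ff t) (Ioi 1) := by
    refine (integrableOn_zero).congr_fun (fun t ht => ?_) measurableSet_Ioi
    simp only
    rw [ff_ge (le_of_lt ht), smul_zero]
  have h4 := h2.union h3
  rwa [Ioc_union_Ioi_eq_Ioi zero_le_one] at h4

theorem mellin_ff {s : ℂ} (hs : 0 < s.re) : mellin ff s = 1 / (s * (s + 1)) := by
  unfold mellin
  have h1 : ∫ t in Ioi (0 : ℝ), (t : ℂ) ^ (s - 1) • ff t = betaIntegral s 2 := by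
    have h0 : ∫ t in Ioi (0 : ℝ), (t : ℂ) ^ (s - 1) • ff t =
        ∫ t in Ioc (0 : ℝ) 1, (t : ℂ) ^ (s - 1) • ff t := by
      refine setIntegral_eq_of_subset_of_forall_sdiff_eq_zero measurableSet_Ioi
        Ioc_subset_Ioi_self (fun t ht => ?_)
      have : 1 ≤ t := by
        by_contra h
        push Not at h
        exact ht.2 ⟨ht.1, h.le⟩
      rw [ff_ge this, smul_zero]
    rw [h0, betaIntegral, intervalIntegral.integral_of_le zero_le_one]
    refine setIntegral_congr_fun measurableSet_Ioc (fun t ht => ?_)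
    rw [ff_lt ht.2, show (2 : ℂ) - 1 = 1 by norm_num, cpow_one, smul_eq_mul]
  rw [h1]
  have h2 := betaIntegral_eval_nat_add_one_right hs 1
  norm_num [Finset.prod_range_succ] at h2
  rw [h2]
  simp

theorem norm_den {c t : ℝ} (hc : 1 < c) :
    1 + t ^ 2 ≤ ‖((c : ℂ) + t * I) * ((c : ℂ) + t * I + 1)‖ := by
  rw [norm_mul]
  have h1 : √(1 + t ^ 2) ≤ ‖(c : ℂ) + t * I‖ := by
    rw [Complex.norm_add_mul_I]
    exact Real.sqrt_le_sqrt (by nlinarith)
  have h2 : √(1 + t ^ 2) ≤ ‖(c : ℂ) + t * I + 1‖ := by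
    have : (c : ℂ) + t * I + 1 = ((c + 1 : ℝ) : ℂ) + t * I := by push_cast; ring
    rw [this, Complex.norm_add_mul_I]
    exact Real.sqrt_le_sqrt (by nlinarith)
  calc 1 + t ^ 2 = √(1 + t ^ 2) * √(1 + t ^ 2) := (Real.mul_self_sqrt (by positivity)).symm
    _ ≤ _ := mul_le_mul h1 h2 (Real.sqrt_nonneg _) (norm_nonneg _)

theorem den_ne {c t : ℝ} (hc : 1 < c) : ((c : ℂ) + t * I) * ((c : ℂ) + t * I + 1) ≠ 0 := by
  have h := norm_den (t := t) hc
  intro h0
  rw [h0, norm_zero] at h
  nlinarith [sq_nonneg t]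

/-- one term of the series -/
theorem one_term {x c : ℝ} (hx : 0 < x) (hc : 1 < c) {n : ℕ} (hn : 0 < n) :
    ff (n / x) = 1 / (2 * Real.pi) * ∫ t : ℝ, (x : ℂ) ^ ((c : ℂ) + t * I) /
      (n : ℂ) ^ ((c : ℂ) + t * I) / (((c : ℂ) + t * I) * ((c : ℂ) + t * I + 1)) := by
  have hn' : (0 : ℝ) < n := by exact_mod_cast hn
  have hu : 0 < (n : ℝ) / x := by positivity
  have hvi : VerticalIntegrable (mellin ff) c := by
    unfold VerticalIntegrable
    have hcont : Continuous fun t : ℝ => mellin ff ((c : ℂ) + t * I) := by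
      have : (fun t : ℝ => mellin ff ((c : ℂ) + t * I)) =
          fun t : ℝ => 1 / (((c : ℂ) + t * I) * ((c : ℂ) + t * I + 1)) := by
        funext t
        rw [mellin_ff (by simp; linarith)]
      rw [this]
      exact Continuous.div continuous_const (by fun_prop) fun t => den_ne hc
    refine (integrable_inv_one_add_sq).mono' hcont.aestronglyMeasurable ?_
    refine Eventually.of_forall fun t => ?_
    rw [mellin_ff (by simp; linarith), norm_div, norm_one, one_div]
    exact inv_anti₀ (by positivity) (norm_den hc)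
  have h := mellinInv_mellin_eq c ff hu (by
    have := mellin_conv (s := (c : ℂ)) (by simp; linarith)
    exact this) hvi ff_cont.continuousAt
  rw [← h]
  unfold mellinInv
  rw [Complex.real_smul]
  congr 1
  · push_cast; rfl
  · refine integral_congr_ae (Eventually.of_forall fun t => ?_)
    simp only
    rw [mellin_ff (by simp; linarith), smul_eq_mul]
    have h1 : (x : ℂ) ^ ((c : ℂ) + t * I) / (n : ℂ) ^ ((c : ℂ) + t * I) =
        (((n : ℝ) / x : ℝ) : ℂ) ^ (-((c : ℂ) + t * I)) := by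
      have hxne : (x : ℂ) ≠ 0 := by exact_mod_cast hx.ne'
      have h2 : (n : ℂ) = (((n : ℝ) / x : ℝ) : ℂ) * (x : ℂ) := by
        push_cast
        field_simp
      have hx0 : (x : ℂ) ^ ((c : ℂ) + t * I) ≠ 0 := by
        rw [Ne, Complex.cpow_eq_zero_iff]
        push Not
        intro h3
        exact absurd h3 (by exact_mod_cast hx.ne')
      have hu0 : (((n : ℝ) / x : ℝ) : ℂ) ^ ((c : ℂ) + t * I) ≠ 0 := by
        rw [Ne, Complex.cpow_eq_zero_iff]
        push Not
        intro h3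
        exact absurd h3 (by exact_mod_cast hu.ne')
      rw [Complex.cpow_neg]
      rw [show (n : ℂ) ^ ((c : ℂ) + t * I) = (((n : ℝ) / x : ℝ) : ℂ) ^ ((c : ℂ) + t * I) *
        (x : ℂ) ^ ((c : ℂ) + t * I) by
          rw [← Complex.mul_cpow_ofReal_nonneg hu.le hx.le, ← h2]]
      field_simp
    rw [h1]
    ring

theorem t_RIESZ : J_RIESZ := by
  intro a ha x c hx hc
  let F : ℕ → ℝ → ℂ := fun n t => LSeries.term a ((c : ℂ) + t * I) n *
    (x : ℂ) ^ ((c : ℂ) + t * I) / (((c : ℂ) + t * I) * ((c : ℂ) + t * I + 1))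
  have hnx : ∀ t : ℝ, ‖(x : ℂ) ^ ((c : ℂ) + t * I)‖ = x ^ c := by
    intro t
    rw [Complex.norm_cpow_eq_rpow_re_of_pos hx]
    simp
  have hbd : ∀ (n : ℕ) (t : ℝ), ‖F n t‖ ≤ ((n : ℝ) ^ (-c) * x ^ c) * (1 + t ^ 2)⁻¹ := by
    intro n t
    simp only [F]
    rw [norm_div, norm_mul, hnx]
    have h1 : ‖LSeries.term a ((c : ℂ) + t * I) n‖ ≤ (n : ℝ) ^ (-c) := by
      rcases Nat.eq_zero_or_pos n with h0 | h0
      · subst h0; simp only [LSeries.term_zero, norm_zero]; positivity
      · rw [LSeries.term_of_ne_zero h0.ne', norm_div]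
        have : ‖(n : ℂ) ^ ((c : ℂ) + t * I)‖ = (n : ℝ) ^ c := by
          rw [← Complex.ofReal_natCast, Complex.norm_cpow_eq_rpow_re_of_pos (by exact_mod_cast h0)]
          simp
        rw [this, Real.rpow_neg (Nat.cast_nonneg n), ← one_div]
        have h2 : (0 : ℝ) < (n : ℝ) ^ c := Real.rpow_pos_of_pos (by exact_mod_cast h0) _
        exact div_le_div_of_nonneg_right (ha n) h2.le
    rw [div_eq_mul_inv]
    have h3 : (‖((c : ℂ) + t * I) * ((c : ℂ) + t * I + 1)‖)⁻¹ ≤ (1 + t ^ 2)⁻¹ :=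
      inv_anti₀ (by positivity) (norm_den hc)
    gcongr
  have hcont : ∀ n : ℕ, Continuous (F n) := by
    intro n
    simp only [F]
    rcases Nat.eq_zero_or_pos n with h0 | h0
    · subst h0; simp only [LSeries.term_zero, zero_mul, zero_div]; exact continuous_const
    · simp only [LSeries.term_of_ne_zero h0.ne']
      have hn0 : (n : ℂ) ≠ 0 := by exact_mod_cast h0.ne'
      have hx0 : (x : ℂ) ≠ 0 := by exact_mod_cast hx.ne'
      refine Continuous.div (Continuous.mul (Continuous.div continuous_const ?_ ?_) ?_)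
        (by fun_prop) fun t => den_ne hc
      · exact Continuous.const_cpow (by fun_prop) (Or.inl hn0)
      · intro t
        rw [Ne, Complex.cpow_eq_zero_iff]
        push Not
        intro h3; exact absurd h3 hn0
      · exact Continuous.const_cpow (by fun_prop) (Or.inl hx0)
  have hint : ∀ n : ℕ, Integrable (F n) := by
    intro n
    refine ((integrable_inv_one_add_sq).const_mul ((n : ℝ) ^ (-c) * x ^ c)).mono'
      (hcont n).aestronglyMeasurable (Eventually.of_forall fun t => hbd n t)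
  have hsum : Summable fun n : ℕ => ∫ t, ‖F n t‖ := by
    have h1 : Summable fun n : ℕ => (n : ℝ) ^ (-c) * (x ^ c * Real.pi) :=
      (Real.summable_nat_rpow.2 (by linarith)).mul_right _
    refine Summable.of_nonneg_of_le (fun n => integral_nonneg fun t => norm_nonneg _) (fun n => ?_) h1
    calc ∫ t, ‖F n t‖ ≤ ∫ t, ((n : ℝ) ^ (-c) * x ^ c) * (1 + t ^ 2)⁻¹ :=
          integral_mono (hint n).norm ((integrable_inv_one_add_sq).const_mul _) (fun t => hbd n t)
      _ = (n : ℝ) ^ (-c) * (x ^ c * Real.pi) := by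
          rw [integral_const_mul, integral_univ_inv_one_add_sq]; ring
  have hH := hasSum_integral_of_summable_integral_norm hint hsum
  -- the right side
  have hR : ∫ t : ℝ, LSeries a (c + t * I) * (x : ℂ) ^ ((c : ℂ) + t * I) /
      (((c : ℂ) + t * I) * ((c : ℂ) + t * I + 1)) = ∫ t, ∑' n, F n t := by
    refine integral_congr_ae (Eventually.of_forall fun t => ?_)
    simp only [F, LSeries]
    rw [tsum_div_const, tsum_mul_right]
  -- the terms
  have hT : ∀ n : ℕ, ∫ t, F n t = (if n = 0 then 0 else a n * ff (n / x)) * (2 * Real.pi) := by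
    intro n
    rcases Nat.eq_zero_or_pos n with h0 | h0
    · subst h0; simp [F]
    · rw [if_neg h0.ne', one_term hx hc h0]
      have hpi : (Real.pi : ℂ) ≠ 0 := by exact_mod_cast Real.pi_ne_zero
      have e : a n * (1 / (2 * Real.pi) * ∫ t : ℝ, (x : ℂ) ^ ((c : ℂ) + t * I) /
          (n : ℂ) ^ ((c : ℂ) + t * I) / (((c : ℂ) + t * I) * ((c : ℂ) + t * I + 1))) * (2 * Real.pi) =
          a n * ∫ t : ℝ, (x : ℂ) ^ ((c : ℂ) + t * I) /
          (n : ℂ) ^ ((c : ℂ) + t * I) / (((c : ℂ) + t * I) * ((c : ℂ) + t * I + 1)) := by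
        generalize (∫ t : ℝ, (x : ℂ) ^ ((c : ℂ) + t * I) /
          (n : ℂ) ^ ((c : ℂ) + t * I) / (((c : ℂ) + t * I) * ((c : ℂ) + t * I + 1))) = J
        field_simp
      rw [e, ← integral_const_mul]
      refine integral_congr_ae (Eventually.of_forall fun t => ?_)
      simp only [F, LSeries.term_of_ne_zero h0.ne']
      ring
  rw [hR, ← hH.tsum_eq]
  simp_rw [hT]
  rw [tsum_mul_right]
  have hpi : (Real.pi : ℂ) ≠ 0 := by exact_mod_cast Real.pi_ne_zero
  rw [tsum_eq_sum (s := Finset.Icc 1 ⌊x⌋₊)]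
  · rw [mul_comm, mul_assoc, mul_one_div, div_self (by simp), mul_one]
    refine Finset.sum_congr rfl fun n hn => ?_
    rw [Finset.mem_Icc] at hn
    rw [if_neg (by omega), ff_lt]
    · push_cast; ring
    · rw [div_le_one hx]
      exact (Nat.le_floor_iff hx.le).1 hn.2
  · intro n hn
    split_ifs with h0
    · rfl
    · rw [ff_ge, mul_zero]
      rw [one_le_div hx]
      by_contra h
      push Not at h
      exact hn (Finset.mem_Icc.2 ⟨by omega, Nat.le_floor h.le⟩)

end Pool.Agent.Q119.FZ
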